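import Mathlib

open scoped ComplexConjugate InnerProductSpace
open Complex Set

namespace Pool.Agent.Results.MP_750254_mp.TwoComponents

/-- Vertices of the substitution tree `𝕋(M, j)`, indexed by their label: the root has label `j`,
and a vertex `x` of label `k` has the children `child x l i` of label `l`, one for each
`i : Fin (M k l)`, so exactly `M k l` children of label `l`. -/
inductive Vtx {A : Type} (M : A → A → ℕ) (j : A) : A → Type
  | root : Vtx M j j
  | child {k : A} (x : Vtx M j k) (l : A) (i : Fin (M k l)) : Vtx M j l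

/-- The vertex set of `𝕋(M, j)`; the label of the vertex `x` is `x.1`. -/
abbrev V {A : Type} (M : A → A → ℕ) (j : A) : Type := Σ k : A, Vtx M j k

/-- `y` is a child (forward neighbour) of `x`. -/
def IsChild {A : Type} {M : A → A → ℕ} {j : A} (x y : V M j) : Prop :=
  ∃ (l : A) (i : Fin (M x.1 l)), y = ⟨l, Vtx.child x.2 l i⟩

/-- `x` and `y` are joined by an edge. -/
def Adj {A : Type} {M : A → A → ℕ} {j : A} (x y : V M j) : Prop :=
  IsChild x y ∨ IsChild y x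

/-- The three conditions on the substitution matrix: row sums at least `2`, positive diagonal,
primitive. -/
def Admissible {A : Type} [Fintype A] [DecidableEq A] (M : A → A → ℕ) : Prop :=
  (∀ j, 2 ≤ ∑ k, M j k) ∧ (∀ j, 1 ≤ M j j) ∧ ∃ n : ℕ, ∀ j k, 0 < ((Matrix.of M) ^ n) j k

/-- The Hilbert space `ℓ²(W)` of square summable complex functions on `W`. -/
abbrev L2 (W : Type) : Type := lp (fun _ : W => ℂ) 2

/-- Bounded linear operators on the complex inner product space `H`. -/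
abbrev Bdd (H : Type) [NormedAddCommGroup H] [InnerProductSpace ℂ H] : Type := H →L[ℂ] H

/-- The vector `T φ`. -/
noncomputable def app {H : Type} [NormedAddCommGroup H] [InnerProductSpace ℂ H]
    (T : Bdd H) (φ : H) : H := T φ

/-- `T` is self-adjoint. -/
def SelfAdj {H : Type} [NormedAddCommGroup H] [InnerProductSpace ℂ H] [CompleteSpace H]
    (T : Bdd H) : Prop := IsSelfAdjoint T

/-- The spectrum of `T`. -/
def specSet {H : Type} [NormedAddCommGroup H] [InnerProductSpace ℂ H] (T : Bdd H) : Set ℂ :=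
  spectrum ℂ T

/-- Bounded linear operators on `ℓ²(W)`. -/
abbrev Op (W : Type) : Type := Bdd (L2 W)

/-- The value `φ(x)`. -/
noncomputable def val {W : Type} (φ : L2 W) (x : W) : ℂ := φ x

/-- `(T φ)(x) = ∑ y, t x y * φ y + w x * φ x` for all `φ` in `ℓ²(W)` and all `x`. -/
def ActsBy {W : Type} (t : W → W → ℂ) (w : W → ℝ) (T : Op W) : Prop :=
  ∀ (φ : L2 W) (x : W), val (app T φ) x = ∑' y, t x y * val φ y + (w x : ℂ) * val φ x

/-- The number of connected components of the set `S`. -/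
noncomputable def numComp {X : Type} [TopologicalSpace X] (S : Set X) : ℕ :=
  Nat.card (ConnectedComponents ↥S)

/-- `T` is a label invariant operator on `ℓ²` of the tree `𝕋(M, j)` (with vertex weight `ν ≡ 1`)
with parameters `m2 j k` (the reals `m_{j,k}`) and `m1 j` (the reals `m_j`). -/
def IsLabelInvariant {A : Type} (M : A → A → ℕ) (m2 : A → A → ℝ) (m1 : A → ℝ) (j : A)
    (T : Op (V M j)) : Prop :=
  ∃ t : V M j → V M j → ℂ,
    (∀ x y, t x y ≠ 0 ↔ Adj x y) ∧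
    (∀ x y, t x y = conj (t y x)) ∧
    (∀ x y, Adj x y → ‖t x y‖ ^ 2 * (M x.1 y.1 : ℝ) = m2 x.1 y.1) ∧
    ActsBy t (fun x => m1 x.1) T

/-- The set `Σ₁` of the parameters `m2`, `m1`. -/
def Sigma1 {A : Type} [Fintype A] (m2 : A → A → ℝ) (m1 : A → ℝ) : Set ℝ :=
  {E : ℝ | ∃ ξ : A → ℂ, (∀ j, 0 < (ξ j).im) ∧
    ∀ j, ξ j * ((E : ℂ) - (m1 j : ℂ) + ∑ k, (m2 j k : ℂ) * ξ k) + 1 = 0}

section ops
variable {W : Type}

lemma extend_norm_sq (f : W → W) (hf : Function.Injective f) (φ : W → ℂ) :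
    (fun y => ‖Function.extend f φ 0 y‖ ^ (2 : ENNReal).toReal) ∘ f = fun x => ‖φ x‖ ^ (2 : ENNReal).toReal := by
  funext x
  simp [hf.extend_apply]

lemma extend_zero (f : W → W) (φ : W → ℂ) (y : W) (hy : y ∉ Set.range f) :
    ‖Function.extend f φ 0 y‖ ^ (2 : ENNReal).toReal = 0 := by
  rw [Function.extend_apply' _ _ _ (by simpa using hy)]
  simp

lemma extend_mem (f : W → W) (hf : Function.Injective f) (φ : L2 W) :
    Memℓp (Function.extend f (φ : W → ℂ) 0) 2 := by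
  rw [memℓp_gen_iff (by norm_num)]
  rw [← hf.summable_iff (fun y hy => extend_zero f φ y hy), extend_norm_sq f hf]
  exact (memℓp_gen_iff (by norm_num)).1 φ.2

/-- transport of functions along an injection -/
noncomputable def push (f : W → W) (hf : Function.Injective f) : L2 W →ₗᵢ[ℂ] L2 W where
  toFun φ := ⟨Function.extend f (φ : W → ℂ) 0, extend_mem f hf φ⟩
  map_add' φ ψ := by
    ext y
    show Function.extend f (fun z => φ z + ψ z) 0 y
      = Function.extend f (φ : W → ℂ) 0 y + Function.extend f (ψ : W → ℂ) 0 y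
    by_cases hy : ∃ x, f x = y
    · obtain ⟨x, rfl⟩ := hy
      simp only [hf.extend_apply]
    · simp only [Function.extend_apply' _ _ _ hy, Pi.zero_apply, add_zero]
  map_smul' c φ := by
    ext y
    by_cases hy : ∃ x, f x = y
    · obtain ⟨x, rfl⟩ := hy
      simp [hf.extend_apply]
    · simp [Function.extend_apply' _ _ _ hy]
  norm_map' φ := by
    rw [lp.norm_eq_tsum_rpow (by norm_num), lp.norm_eq_tsum_rpow (by norm_num)]
    congr 1
    have := hf.tsum_eq (f := fun y => ‖Function.extend f (φ : W → ℂ) 0 y‖ ^ (2 : ENNReal).toReal) (by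
      intro y hy
      by_contra hc
      exact hy (extend_zero f φ y hc))
    have h1 : ∑' x, ‖φ x‖ ^ (2 : ENNReal).toReal
        = ∑' x, ((fun y => ‖Function.extend f (φ : W → ℂ) 0 y‖ ^ (2 : ENNReal).toReal) ∘ f) x := by
      rw [extend_norm_sq f hf]
    exact this.symm.trans h1.symm

lemma push_apply (f : W → W) (hf : Function.Injective f) (φ : L2 W) (x : W) :
    push f hf φ (f x) = φ x := by
  show Function.extend f (φ : W → ℂ) 0 (f x) = φ x
  exact hf.extend_apply _ _ _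

lemma push_apply' (f : W → W) (hf : Function.Injective f) (φ : L2 W) (y : W)
    (hy : ∀ x, f x ≠ y) : push f hf φ y = 0 := by
  show Function.extend f (φ : W → ℂ) 0 y = 0
  rw [Function.extend_apply' _ _ _ (by simpa using hy)]
  rfl

lemma adj_push_apply (f : W → W) (hf : Function.Injective f) (φ : L2 W) (x : W) :
    (ContinuousLinearMap.adjoint (push f hf).toContinuousLinearMap) φ x = φ (f x) := by
  classical
  have h1 : ⟪(lp.single 2 x (1 : ℂ) : L2 W), (ContinuousLinearMap.adjoint (push f hf).toContinuousLinearMap) φ⟫_ℂ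
      = (ContinuousLinearMap.adjoint (push f hf).toContinuousLinearMap) φ x := by
    rw [lp.inner_single_left]; simp
  rw [← h1, ContinuousLinearMap.adjoint_inner_right]
  have h2 : (push f hf).toContinuousLinearMap (lp.single 2 x (1 : ℂ) : L2 W) = lp.single 2 (f x) (1 : ℂ) := by
    ext y
    by_cases hy : ∃ z, f z = y
    · obtain ⟨z, rfl⟩ := hy
      show push f hf (lp.single 2 x (1 : ℂ)) (f z) = _
      rw [push_apply]
      by_cases hz : z = x
      · subst hz; simp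
      · rw [lp.single_apply_ne _ _ _ hz, lp.single_apply_ne _ _ _ (fun h => hz (hf h))]
    · have : ∀ x, f x ≠ y := fun x hx => hy ⟨x, hx⟩
      show push f hf (lp.single 2 x (1 : ℂ)) y = _
      rw [push_apply' _ _ _ _ this, lp.single_apply_ne _ _ _ (fun h => this x h.symm)]
  rw [h2, lp.inner_single_left]; simp

lemma mul_mem (c : W → ℂ) (C : ℝ) (hC : ∀ x, ‖c x‖ ≤ C) (φ : L2 W) :
    Memℓp (fun x => c x * φ x) 2 := by
  rw [memℓp_gen_iff (by norm_num)]
  have h := ((memℓp_gen_iff (p := 2) (by norm_num)).1 φ.2).mul_left (C ^ (2:ℝ))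
  refine Summable.of_nonneg_of_le (fun x => by positivity) (fun x => ?_) h
  have hC0 : 0 ≤ C := (norm_nonneg _).trans (hC x)
  simp only [ENNReal.toReal_ofNat]
  rw [norm_mul, Real.mul_rpow (norm_nonneg _) (norm_nonneg _)]
  gcongr
  exact hC x

noncomputable def mulL (c : W → ℂ) (C : ℝ) (hC : ∀ x, ‖c x‖ ≤ C) : L2 W →ₗ[ℂ] L2 W where
  toFun φ := ⟨fun x => c x * φ x, mul_mem c C hC φ⟩
  map_add' φ ψ := by
    ext y
    show c y * (φ y + ψ y) = c y * φ y + c y * ψ y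
    ring
  map_smul' a φ := by
    ext y
    simp; ring

noncomputable def mul (c : W → ℂ) (C : ℝ) (hC : ∀ x, ‖c x‖ ≤ C) : L2 W →L[ℂ] L2 W :=
  (mulL c C hC).mkContinuous |C| (fun φ => by
    refine lp.norm_le_of_forall_sum_le (p := 2) (by norm_num) (by positivity) (fun s => ?_)
    have := lp.sum_rpow_le_norm_rpow (p := 2) (by norm_num) φ s
    simp only [ENNReal.toReal_ofNat] at this ⊢
    calc ∑ i ∈ s, ‖(mulL c C hC φ) i‖ ^ (2:ℝ) ≤ ∑ i ∈ s, |C| ^ (2:ℝ) * ‖φ i‖ ^ (2:ℝ) := by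
          refine Finset.sum_le_sum (fun i _ => ?_)
          show ‖c i * φ i‖ ^ (2:ℝ) ≤ _
          rw [norm_mul, Real.mul_rpow (norm_nonneg _) (norm_nonneg _)]
          gcongr
          exact (hC i).trans (le_abs_self _)
      _ = |C| ^ (2:ℝ) * ∑ i ∈ s, ‖φ i‖ ^ (2:ℝ) := by rw [Finset.mul_sum]
      _ ≤ |C| ^ (2:ℝ) * ‖φ‖ ^ (2:ℝ) := by gcongr
      _ = (|C| * ‖φ‖) ^ (2:ℝ) := by rw [Real.mul_rpow (abs_nonneg _) (norm_nonneg _)])

lemma mul_apply (c : W → ℂ) (C : ℝ) (hC : ∀ x, ‖c x‖ ≤ C) (φ : L2 W) (x : W) :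
    mul c C hC φ x = c x * φ x := rfl

end ops


/-- The substitution matrix with all entries one. -/
abbrev M1 : Fin 2 → Fin 2 → ℕ := fun _ _ => 1

/-- The parameters `m_{j,k} = 1`. -/
def hop : Fin 2 → Fin 2 → ℝ := fun _ _ => 1

/-- The potential: `√2` on label `0` and `-√2` on label `1`. -/
noncomputable def wt : Fin 2 → ℝ := ![√2, -√2]

/-- The number `3√6/2`. -/
noncomputable def edge : ℝ := 3 * √6 / 2

def ch {j : Fin 2} (x : V M1 j) (l : Fin 2) : V M1 j := ⟨l, Vtx.child x.2 l 0⟩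

lemma ch_inj {j : Fin 2} {x y : V M1 j} {l m : Fin 2} (h : ch x l = ch y m) : x = y ∧ l = m := by
  obtain ⟨k, x⟩ := x
  obtain ⟨k', y⟩ := y
  simp only [ch, Sigma.mk.injEq] at h
  obtain ⟨rfl, h⟩ := h
  have h2 := eq_of_heq h
  injection h2 with h3 h4
  subst h3
  have h5 := eq_of_heq h4
  subst h5
  exact ⟨rfl, rfl⟩

lemma ch_ne_root {j : Fin 2} (x : V M1 j) (l : Fin 2) : ch x l ≠ ⟨j, Vtx.root⟩ := by
  intro h
  simp only [ch, Sigma.mk.injEq] at h
  obtain ⟨rfl, h⟩ := h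
  have h2 := eq_of_heq h
  cases h2

lemma cases_ch {j : Fin 2} (y : V M1 j) : y = ⟨j, Vtx.root⟩ ∨ ∃ x l, y = ch x l := by
  obtain ⟨k, y⟩ := y
  cases y with
  | root => left; rfl
  | child x l i => right; exact ⟨⟨_, x⟩, k, by simp only [ch]; congr 2; exact Subsingleton.elim _ _⟩

lemma isChild_iff {j : Fin 2} (x y : V M1 j) : IsChild x y ↔ ∃ l, y = ch x l := by
  constructor
  · rintro ⟨l, i, rfl⟩
    exact ⟨l, by simp only [ch]; congr 2; exact Subsingleton.elim _ _⟩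
  · rintro ⟨l, rfl⟩
    exact ⟨l, 0, rfl⟩


/-- distance to the root -/
def depth {A : Type} {M : A → A → ℕ} {j : A} : {k : A} → Vtx M j k → ℕ
  | _, .root => 0
  | _, .child x _ _ => depth x + 1

lemma depth_ch {j : Fin 2} (x : V M1 j) (l : Fin 2) : depth (ch x l).2 = depth x.2 + 1 := rfl

lemma ch_fst {j : Fin 2} (x : V M1 j) (l : Fin 2) : (ch x l).1 = l := rfl

section T
variable {j : Fin 2}

/-- copy a function to the children of label `l` -/
noncomputable def Lop (j l : Fin 2) : L2 (V M1 j) →ₗᵢ[ℂ] L2 (V M1 j) :=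
  push (fun x => ch x l) (fun _ _ h => (ch_inj h).1)

lemma Lop_ch (l m : Fin 2) (φ : L2 (V M1 j)) (x : V M1 j) :
    Lop j l φ (ch x m) = if l = m then φ x else 0 := by
  split_ifs with h
  · subst h
    exact push_apply _ _ φ x
  · exact push_apply' _ _ φ _ (fun z hz => h (ch_inj hz).2)

lemma Lop_root (l : Fin 2) (φ : L2 (V M1 j)) : Lop j l φ ⟨j, Vtx.root⟩ = 0 :=
  push_apply' _ _ φ _ (fun z hz => ch_ne_root z l hz)

lemma wt_bd (l : Fin 2) : ‖((wt l : ℝ) : ℂ)‖ ≤ √2 := by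
  fin_cases l <;> simp [wt, abs_of_nonneg (Real.sqrt_nonneg 2)]

noncomputable def Wop (j : Fin 2) : L2 (V M1 j) →L[ℂ] L2 (V M1 j) :=
  mul (fun x => ((wt x.1 : ℝ) : ℂ)) (√2) (fun x => wt_bd x.1)

noncomputable def B (j : Fin 2) : L2 (V M1 j) →L[ℂ] L2 (V M1 j) :=
  ∑ l, (Lop j l).toContinuousLinearMap

noncomputable def T (j : Fin 2) : L2 (V M1 j) →L[ℂ] L2 (V M1 j) :=
  B j + ContinuousLinearMap.adjoint (B j) + Wop j

lemma B_apply (φ : L2 (V M1 j)) (x : V M1 j) : B j φ x = ∑ l, Lop j l φ x := by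
  simp [B, Fin.sum_univ_two]

lemma adj_Lop_apply (l : Fin 2) (φ : L2 (V M1 j)) (x : V M1 j) :
    (ContinuousLinearMap.adjoint (Lop j l).toContinuousLinearMap) φ x = φ (ch x l) :=
  adj_push_apply _ _ φ x

lemma Bstar_apply (φ : L2 (V M1 j)) (x : V M1 j) :
    ContinuousLinearMap.adjoint (B j) φ x = ∑ l, φ (ch x l) := by
  rw [B, map_sum]
  simp only [Fin.sum_univ_two]
  exact congrArg₂ (· + ·) (adj_Lop_apply 0 φ x) (adj_Lop_apply 1 φ x)

lemma T_apply (φ : L2 (V M1 j)) (x : V M1 j) :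
    T j φ x = ∑ l, Lop j l φ x + ∑ l, φ (ch x l) + (wt x.1 : ℂ) * φ x := by
  rw [← B_apply, ← Bstar_apply]
  rfl

lemma T_selfAdjoint (j : Fin 2) : IsSelfAdjoint (T j) := by
  have h1 : IsSelfAdjoint (Wop j) := by
    rw [ContinuousLinearMap.isSelfAdjoint_iff_isSymmetric]
    intro φ ψ
    show ⟪Wop j φ, ψ⟫_ℂ = ⟪φ, Wop j ψ⟫_ℂ
    rw [lp.inner_eq_tsum, lp.inner_eq_tsum]
    congr 1
    funext x
    rw [Wop, mul_apply, mul_apply]
    simp only [RCLike.inner_apply, map_mul, Complex.conj_ofReal]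
    ring
  have h2 : IsSelfAdjoint (B j + ContinuousLinearMap.adjoint (B j)) := by
    rw [← ContinuousLinearMap.star_eq_adjoint]
    exact IsSelfAdjoint.add_star_self _
  exact h2.add h1

open Classical in
lemma T_label (j : Fin 2) : IsLabelInvariant M1 (fun _ _ => 1) wt j (T j) := by
  refine ⟨fun x y => if Adj x y then 1 else 0, ?_, ?_, ?_, ?_⟩
  · intro x y
    simp
  · intro x y
    have : Adj x y ↔ Adj y x := by unfold Adj; tauto
    by_cases h : Adj x y
    · simp [h, this.1 h]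
    · have h' : ¬ Adj y x := fun h' => h (this.2 h')
      simp [h, h']
  · intro x y h
    simp [h]
  · intro φ x
    show T j φ x = ∑' y, (if Adj x y then 1 else 0) * φ y + (wt x.1 : ℂ) * φ x
    rw [T_apply]
    congr 1
    rcases cases_ch x with rfl | ⟨z, l, rfl⟩
    · have hx : ∀ y, Adj (⟨j, Vtx.root⟩ : V M1 j) y ↔ y = ch ⟨j, Vtx.root⟩ 0 ∨ y = ch ⟨j, Vtx.root⟩ 1 := by
        intro y
        unfold Adj
        rw [isChild_iff, isChild_iff]
        simp only [Fin.exists_fin_two]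
        constructor
        · rintro (h | h | h)
          · exact h
          · exact absurd h.symm (ch_ne_root _ _)
          · exact absurd h.symm (ch_ne_root _ _)
        · intro h
          exact Or.inl h
      rw [tsum_eq_sum (s := {ch ⟨j, Vtx.root⟩ 0, ch ⟨j, Vtx.root⟩ 1})]
      · rw [Finset.sum_pair (fun h => by simpa using (ch_inj h).2)]
        simp only [Fin.sum_univ_two, Lop_root, hx]
        simp
      · intro y hy
        simp only [Finset.mem_insert, Finset.mem_singleton] at hy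
        simp [hx, hy]
    · have hx : ∀ y, Adj (ch z l) y ↔ y = z ∨ y = ch (ch z l) 0 ∨ y = ch (ch z l) 1 := by
        intro y
        unfold Adj
        rw [isChild_iff, isChild_iff]
        constructor
        · rintro (⟨m, h⟩ | ⟨m, h⟩)
          · fin_cases m
            · exact Or.inr (Or.inl h)
            · exact Or.inr (Or.inr h)
          · exact Or.inl (ch_inj h).1.symm
        · rintro (h | h | h)
          · exact Or.inr ⟨l, by rw [h]⟩
          · exact Or.inl ⟨0, h⟩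
          · exact Or.inl ⟨1, h⟩
      have hz : ∀ m, z ≠ ch (ch z l) m := by
        intro m h
        have := congrArg (fun v : V M1 j => depth v.2) h
        simp only [depth_ch] at this
        omega
      have h01 : ch (ch z l) 0 ≠ ch (ch z l) 1 := fun h => by simpa using (ch_inj h).2
      rw [tsum_eq_sum (s := {z, ch (ch z l) 0, ch (ch z l) 1})]
      · rw [Finset.sum_insert (by simp [hz]), Finset.sum_pair h01]
        simp only [Fin.sum_univ_two, Lop_ch, hx]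
        fin_cases l <;> simp
      · intro y hy
        simp only [Finset.mem_insert, Finset.mem_singleton] at hy
        simp [hx, hy]

end T

section Weyl

lemma inner_zero_of_supp {W : Type} (φ ψ : L2 W) (h : ∀ x, φ x = 0 ∨ ψ x = 0) : ⟪φ, ψ⟫_ℂ = 0 := by
  rw [lp.inner_eq_tsum]
  have : ∀ x, ⟪φ x, ψ x⟫_ℂ = 0 := by
    intro x
    rcases h x with h | h <;> simp [h]
  rw [tsum_congr this, tsum_zero]

variable {j : Fin 2} (ξ : Fin 2 → ℂ)

open Classical in
/-- the level pieces of the generalized eigenfunction -/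
noncomputable def psi (j : Fin 2) (ξ : Fin 2 → ℂ) : ℕ → L2 (V M1 j)
  | 0 => lp.single 2 ⟨j, Vtx.root⟩ (1 : ℂ)
  | n + 1 => - ∑ l, ξ l • Lop j l (psi j ξ n)

lemma psi_succ_apply (n : ℕ) (x : V M1 j) :
    psi j ξ (n + 1) x = - (ξ 0 * Lop j 0 (psi j ξ n) x + ξ 1 * Lop j 1 (psi j ξ n) x) := by
  rw [psi, Fin.sum_univ_two]
  rfl

lemma psi_succ_ch (n : ℕ) (x : V M1 j) (l : Fin 2) :
    psi j ξ (n + 1) (ch x l) = - (ξ l * psi j ξ n x) := by
  rw [psi_succ_apply, Lop_ch, Lop_ch]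
  fin_cases l <;> simp

lemma psi_succ_root (n : ℕ) : psi j ξ (n + 1) ⟨j, Vtx.root⟩ = 0 := by
  rw [psi_succ_apply, Lop_root, Lop_root]
  simp

lemma psi_supp (n : ℕ) : ∀ x : V M1 j, depth x.2 ≠ n → psi j ξ n x = 0 := by
  induction n with
  | zero =>
    intro x hx
    classical
    rw [psi]
    refine lp.single_apply_ne _ _ _ ?_
    rintro rfl
    exact hx rfl
  | succ n ih =>
    intro x hx
    rcases cases_ch x with rfl | ⟨z, l, rfl⟩
    · exact psi_succ_root ξ n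
    · rw [psi_succ_ch, ih z (fun h => hx (by rw [depth_ch, h]))]
      simp

lemma psi_norm (h : ‖ξ 0‖ ^ 2 + ‖ξ 1‖ ^ 2 = 1) (n : ℕ) : ‖psi j ξ n‖ = 1 := by
  induction n with
  | zero =>
    classical
    rw [psi, lp.norm_single (by norm_num)]
    simp
  | succ n ih =>
    rw [psi, norm_neg, Fin.sum_univ_two]
    have h0 : ⟪ξ 0 • Lop j 0 (psi j ξ n), ξ 1 • Lop j 1 (psi j ξ n)⟫_ℂ = 0 := by
      rw [inner_smul_left, inner_smul_right, inner_zero_of_supp, mul_zero, mul_zero]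
      intro x
      rcases cases_ch x with rfl | ⟨z, l, rfl⟩
      · left; exact Lop_root _ _
      · rw [Lop_ch, Lop_ch]
        fin_cases l <;> simp
    have h1 := norm_add_sq_eq_norm_sq_add_norm_sq_of_inner_eq_zero _ _ h0
    rw [norm_smul, norm_smul, LinearIsometry.norm_map, LinearIsometry.norm_map, ih] at h1
    have h2 : ‖ξ 0 • Lop j 0 (psi j ξ n) + ξ 1 • Lop j 1 (psi j ξ n)‖ ^ 2 = 1 := by
      nlinarith
    nlinarith [norm_nonneg (ξ 0 • Lop j 0 (psi j ξ n) + ξ 1 • Lop j 1 (psi j ξ n))]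

/-- truncations -/
noncomputable def Phi (j : Fin 2) (ξ : Fin 2 → ℂ) (N : ℕ) : L2 (V M1 j) :=
  ∑ n ∈ Finset.range N, psi j ξ n

lemma Phi_succ (N : ℕ) : Phi j ξ (N + 1) = Phi j ξ N + psi j ξ N := by
  rw [Phi, Finset.sum_range_succ]; rfl

lemma Phi_supp (N : ℕ) : ∀ x : V M1 j, N ≤ depth x.2 → Phi j ξ N x = 0 := by
  intro x hx
  rw [Phi, lp.coeFn_sum, Finset.sum_apply]
  refine Finset.sum_eq_zero (fun n hn => psi_supp ξ n x ?_)
  have := Finset.mem_range.1 hn
  omega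

lemma Phi_norm (h : ‖ξ 0‖ ^ 2 + ‖ξ 1‖ ^ 2 = 1) (N : ℕ) : ‖Phi j ξ N‖ ^ 2 = N := by
  induction N with
  | zero => simp [Phi]
  | succ N ih =>
    have h0 : ⟪Phi j ξ N, psi j ξ N⟫_ℂ = 0 := by
      refine inner_zero_of_supp _ _ (fun x => ?_)
      by_cases hx : depth x.2 = N
      · left; exact Phi_supp ξ N x hx.ge
      · right; exact psi_supp ξ N x hx
    have h1 := norm_add_sq_eq_norm_sq_add_norm_sq_of_inner_eq_zero _ _ h0
    rw [psi_norm ξ h, ← Phi_succ] at h1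
    push_cast
    nlinarith

lemma key (E : ℝ) (hξ : ∀ l, ξ l * ((E : ℂ) - (wt l : ℂ) + (ξ 0 + ξ 1)) + 1 = 0) (n : ℕ) :
    B j (psi j ξ n) + ContinuousLinearMap.adjoint (B j) (psi j ξ (n + 2))
      + (Wop j (psi j ξ (n + 1)) - (E : ℂ) • psi j ξ (n + 1)) = 0 := by
  ext x
  show B j (psi j ξ n) x + ContinuousLinearMap.adjoint (B j) (psi j ξ (n + 2)) x
      + ((wt x.1 : ℂ) * psi j ξ (n + 1) x - (E : ℂ) * psi j ξ (n + 1) x) = 0
  rw [B_apply, Bstar_apply, Fin.sum_univ_two, Fin.sum_univ_two, psi_succ_ch, psi_succ_ch]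
  rcases cases_ch x with rfl | ⟨z, l, rfl⟩
  · rw [Lop_root, Lop_root, psi_succ_root]
    simp
  · rw [psi_succ_ch, Lop_ch, Lop_ch]
    have := hξ l
    have h2 : (if (0 : Fin 2) = l then psi j ξ n z else 0) + (if (1 : Fin 2) = l then psi j ξ n z else 0)
        = psi j ξ n z := by
      fin_cases l <;> simp
    rw [h2, ch_fst]
    linear_combination psi j ξ n z * this

lemma tele (E : ℝ) (hξ : ∀ l, ξ l * ((E : ℂ) - (wt l : ℂ) + (ξ 0 + ξ 1)) + 1 = 0) (N : ℕ) :
    T j (Phi j ξ (N + 1)) - (E : ℂ) • Phi j ξ (N + 1) =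
      (T j (psi j ξ 0) - (E : ℂ) • psi j ξ 0 - B j (psi j ξ 0)
        + ContinuousLinearMap.adjoint (B j) (psi j ξ 1))
      + B j (psi j ξ N) - ContinuousLinearMap.adjoint (B j) (psi j ξ (N + 1)) := by
  induction N with
  | zero =>
    rw [Phi_succ]
    simp only [Phi, Finset.range_zero, Finset.sum_empty, zero_add]
    abel
  | succ N ih =>
    rw [Phi_succ, map_add, smul_add]
    have e1 : T j (Phi j ξ (N + 1)) + T j (psi j ξ (N + 1)) - ((E : ℂ) • Phi j ξ (N + 1) + (E : ℂ) • psi j ξ (N + 1))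
      = (T j (Phi j ξ (N + 1)) - (E : ℂ) • Phi j ξ (N + 1)) + (T j (psi j ξ (N + 1)) - (E : ℂ) • psi j ξ (N + 1)) := by
      abel
    rw [e1, ih]
    have e2 : T j (psi j ξ (N + 1)) = B j (psi j ξ (N + 1)) + ContinuousLinearMap.adjoint (B j) (psi j ξ (N + 1))
      + Wop j (psi j ξ (N + 1)) := rfl
    have e3 := key ξ E hξ N (j := j)
    have e4 : Wop j (psi j ξ (N + 1)) = (E : ℂ) • psi j ξ (N + 1) - B j (psi j ξ N)
      - ContinuousLinearMap.adjoint (B j) (psi j ξ (N + 2)) := by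
      have : Wop j (psi j ξ (N + 1)) = (B j (psi j ξ N) + ContinuousLinearMap.adjoint (B j) (psi j ξ (N + 2))
      + (Wop j (psi j ξ (N + 1)) - (E : ℂ) • psi j ξ (N + 1))) + (E : ℂ) • psi j ξ (N + 1) - B j (psi j ξ N)
      - ContinuousLinearMap.adjoint (B j) (psi j ξ (N + 2)) := by abel
      rw [e3] at this
      rw [this]; abel
    rw [e2, e4]
    abel

lemma mem_spectrum (E : ℝ) (him : ∀ l, 0 < (ξ l).im)
    (hξ : ∀ l, ξ l * ((E : ℂ) - (wt l : ℂ) + (ξ 0 + ξ 1)) + 1 = 0) : (E : ℂ) ∈ spectrum ℂ (T j) := by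
  have hnorm : ‖ξ 0‖ ^ 2 + ‖ξ 1‖ ^ 2 = 1 := by
    have hl : ∀ l, (ξ l).im = ‖ξ l‖ ^ 2 * ((ξ 0).im + (ξ 1).im) := by
      intro l
      have h1 := hξ l
      have h2 : (starRingEnd ℂ (ξ l)) * (ξ l * ((E : ℂ) - (wt l : ℂ) + (ξ 0 + ξ 1)) + 1) = 0 := by
        rw [h1, mul_zero]
      have h3 : ((‖ξ l‖ ^ 2 : ℝ) : ℂ) * ((E : ℂ) - (wt l : ℂ) + (ξ 0 + ξ 1)) + starRingEnd ℂ (ξ l) = 0 := by
        rw [← h2, ← Complex.normSq_eq_norm_sq, Complex.normSq_eq_conj_mul_self]
        ring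
      have h4 := congrArg Complex.im h3
      rw [Complex.add_im, Complex.im_ofReal_mul] at h4
      simp only [Complex.add_im, Complex.sub_im, Complex.ofReal_im, Complex.conj_im, Complex.zero_im,
        sub_zero, zero_add] at h4
      linarith
    have h0 := hl 0
    have h1 := hl 1
    have hs : 0 < (ξ 0).im + (ξ 1).im := add_pos (him 0) (him 1)
    have : (‖ξ 0‖ ^ 2 + ‖ξ 1‖ ^ 2 - 1) * ((ξ 0).im + (ξ 1).im) = 0 := by linarith
    rcases mul_eq_zero.1 this with h | h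
    · linarith
    · exact absurd h hs.ne'
  by_contra hE
  rw [spectrum.notMem_iff] at hE
  obtain ⟨R, hR⟩ := hE.exists_left_inv
  set R0 := T j (psi j ξ 0) - (E : ℂ) • psi j ξ 0 - B j (psi j ξ 0)
        + ContinuousLinearMap.adjoint (B j) (psi j ξ 1) with hR0
  set C := ‖R0‖ + ‖B j‖ + ‖ContinuousLinearMap.adjoint (B j)‖ with hC
  have hbd : ∀ N, ‖T j (Phi j ξ (N + 1)) - (E : ℂ) • Phi j ξ (N + 1)‖ ≤ C := by
    intro N
    rw [tele ξ E hξ N]
    have h1 : ‖B j (psi j ξ N)‖ ≤ ‖B j‖ := by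
      have := (B j).le_opNorm (psi j ξ N)
      rwa [psi_norm ξ hnorm, mul_one] at this
    have h2 : ‖ContinuousLinearMap.adjoint (B j) (psi j ξ (N + 1))‖ ≤ ‖ContinuousLinearMap.adjoint (B j)‖ := by
      have := (ContinuousLinearMap.adjoint (B j)).le_opNorm (psi j ξ (N + 1))
      rwa [psi_norm ξ hnorm, mul_one] at this
    calc _ ≤ ‖R0 + B j (psi j ξ N)‖ + ‖ContinuousLinearMap.adjoint (B j) (psi j ξ (N + 1))‖ := norm_sub_le _ _
      _ ≤ ‖R0‖ + ‖B j (psi j ξ N)‖ + ‖ContinuousLinearMap.adjoint (B j) (psi j ξ (N + 1))‖ := by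
        gcongr; exact norm_add_le _ _
      _ ≤ C := by rw [hC]; gcongr
  have hbd2 : ∀ N : ℕ, ‖Phi j ξ (N + 1)‖ ≤ ‖R‖ * C := by
    intro N
    have e : Phi j ξ (N + 1) = R (((algebraMap ℂ (L2 (V M1 j) →L[ℂ] L2 (V M1 j))) (E : ℂ) - T j) (Phi j ξ (N + 1))) := by
      have := congrArg (fun S : L2 (V M1 j) →L[ℂ] L2 (V M1 j) => S (Phi j ξ (N + 1))) hR
      exact this.symm
    have e2 : ((algebraMap ℂ (L2 (V M1 j) →L[ℂ] L2 (V M1 j))) (E : ℂ) - T j) (Phi j ξ (N + 1))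
        = - (T j (Phi j ξ (N + 1)) - (E : ℂ) • Phi j ξ (N + 1)) := by
      rw [neg_sub]; rfl
    rw [e, e2]
    refine (R.le_opNorm _).trans ?_
    rw [norm_neg]
    exact mul_le_mul_of_nonneg_left (hbd N) (norm_nonneg _)
  obtain ⟨N, hN⟩ := exists_nat_gt ((‖R‖ * C) ^ 2)
  have h1 := hbd2 N
  have h2 := Phi_norm ξ hnorm (j := j) (N + 1)
  have h3 : ‖Phi j ξ (N + 1)‖ ^ 2 ≤ (‖R‖ * C) ^ 2 := by gcongr
  rw [h2] at h3
  push_cast at h3
  linarith

end Weyl

section Form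
variable {j : Fin 2}

/-- restriction to the vertices of label `l` -/
noncomputable def Pr (j l : Fin 2) : L2 (V M1 j) →L[ℂ] L2 (V M1 j) :=
  mul (fun x => if x.1 = l then 1 else 0) 1 (fun x => by split_ifs <;> simp)

lemma Pr_apply (l : Fin 2) (φ : L2 (V M1 j)) (x : V M1 j) :
    Pr j l φ x = if x.1 = l then φ x else 0 := by
  rw [Pr, mul_apply]
  split_ifs <;> simp

lemma Pr_add (φ : L2 (V M1 j)) : Pr j 0 φ + Pr j 1 φ = φ := by
  ext x
  show Pr j 0 φ x + Pr j 1 φ x = φ x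
  rw [Pr_apply, Pr_apply]
  obtain ⟨k, x⟩ := x
  fin_cases k <;> simp

lemma Pr_orth (φ : L2 (V M1 j)) : ⟪Pr j 0 φ, Pr j 1 φ⟫_ℂ = 0 := by
  refine inner_zero_of_supp _ _ (fun x => ?_)
  rw [Pr_apply, Pr_apply]
  obtain ⟨k, x⟩ := x
  fin_cases k <;> simp

lemma Pr_norm (φ : L2 (V M1 j)) : ‖φ‖ ^ 2 = ‖Pr j 0 φ‖ ^ 2 + ‖Pr j 1 φ‖ ^ 2 := by
  have h := norm_add_sq_eq_norm_sq_add_norm_sq_of_inner_eq_zero _ _ (Pr_orth φ)
  rw [Pr_add] at h
  nlinarith

lemma Wop_eq (φ : L2 (V M1 j)) : Wop j φ = (√2 : ℂ) • Pr j 0 φ - (√2 : ℂ) • Pr j 1 φ := by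
  ext x
  show (wt x.1 : ℂ) * φ x = (√2 : ℂ) * Pr j 0 φ x - (√2 : ℂ) * Pr j 1 φ x
  rw [Pr_apply, Pr_apply]
  obtain ⟨k, x⟩ := x
  fin_cases k <;> simp [wt]

lemma inner_aux {H : Type} [NormedAddCommGroup H] [InnerProductSpace ℂ H] (a b : H) (c : ℝ)
    (h : ⟪a, b⟫_ℂ = 0) : (⟪a + b, (c : ℂ) • a - (c : ℂ) • b⟫_ℂ).re = c * (‖a‖ ^ 2 - ‖b‖ ^ 2) := by
  have h' : ⟪b, a⟫_ℂ = 0 := inner_eq_zero_symm.1 h
  rw [inner_sub_right, inner_smul_right, inner_smul_right, inner_add_left, inner_add_left, h, h',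
    inner_self_eq_norm_sq_to_K, inner_self_eq_norm_sq_to_K]
  simp only [add_zero, zero_add, Complex.coe_algebraMap]
  rw [← Complex.ofReal_pow, ← Complex.ofReal_pow, ← Complex.ofReal_mul, ← Complex.ofReal_mul,
    ← Complex.ofReal_sub, Complex.ofReal_re]
  ring

lemma inner_W (φ : L2 (V M1 j)) :
    (⟪φ, Wop j φ⟫_ℂ).re = √2 * (‖Pr j 0 φ‖ ^ 2 - ‖Pr j 1 φ‖ ^ 2) := by
  rw [Wop_eq]
  have h := inner_aux (Pr j 0 φ) (Pr j 1 φ) (√2) (Pr_orth φ)
  rwa [Pr_add] at h

lemma inner_L (l : Fin 2) (φ : L2 (V M1 j)) :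
    |(⟪φ, Lop j l φ⟫_ℂ).re| ≤ ‖Pr j l φ‖ * ‖φ‖ := by
  have h : ⟪φ, Lop j l φ⟫_ℂ = ⟪Pr j l φ, Lop j l φ⟫_ℂ := by
    have h1 : ⟪φ - Pr j l φ, Lop j l φ⟫_ℂ = 0 := by
      refine inner_zero_of_supp _ _ (fun x => ?_)
      by_cases hx : x.1 = l
      · left
        show φ x - Pr j l φ x = 0
        rw [Pr_apply, if_pos hx, sub_self]
      · right
        rcases cases_ch x with rfl | ⟨z, m, rfl⟩
        · exact Lop_root _ _
        · rw [Lop_ch, if_neg (fun h => hx (by rw [h, ch_fst]))]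
    rw [inner_sub_left, sub_eq_zero] at h1
    exact h1
  rw [h]
  calc |(⟪Pr j l φ, Lop j l φ⟫_ℂ).re| ≤ ‖⟪Pr j l φ, Lop j l φ⟫_ℂ‖ := Complex.abs_re_le_norm _
    _ ≤ ‖Pr j l φ‖ * ‖Lop j l φ‖ := norm_inner_le_norm _ _
    _ = ‖Pr j l φ‖ * ‖φ‖ := by rw [LinearIsometry.norm_map]

lemma num_bound (p q n x y : ℝ) (h : n ^ 2 = p ^ 2 + q ^ 2)
    (hx : x ≤ p * n) (hy : y ≤ q * n) (c : ℝ) (hc : c = √2 ∨ c = -√2) :
    2 * (x + y) + c * (p ^ 2 - q ^ 2) ≤ 3 * √6 / 2 * n ^ 2 := by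
  have h2 : c ^ 2 = 2 := by
    rcases hc with rfl | rfl
    · exact Real.sq_sqrt (by norm_num)
    · rw [neg_sq]; exact Real.sq_sqrt (by norm_num)
  have h6 : √6 ^ 2 = 6 := Real.sq_sqrt (by norm_num)
  have h26 : √2 < √6 := Real.sqrt_lt_sqrt (by norm_num) (by norm_num)
  have h0 : 0 ≤ √2 := Real.sqrt_nonneg 2
  have hc1 : 0 < √6 - c := by rcases hc with rfl | rfl <;> linarith
  have hc2 : 0 < √6 + c := by rcases hc with rfl | rfl <;> linarith
  have hm : (√6 - c) * (√6 + c) = 4 := by linear_combination h6 - h2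
  have k1 : 0 ≤ (√6 - c) * (p - n * (√6 + c) / 4) ^ 2 := by positivity
  have k2 : 0 ≤ (√6 + c) * (q - n * (√6 - c) / 4) ^ 2 := by positivity
  have e1 : (√6 - c) * (p - n * (√6 + c) / 4) ^ 2 = (√6 - c) * p ^ 2 - 2 * (p * n) + n ^ 2 * (√6 + c) / 4 := by
    linear_combination (- (p * n) / 2 + n ^ 2 * (√6 + c) / 16) * hm
  have e2 : (√6 + c) * (q - n * (√6 - c) / 4) ^ 2 = (√6 + c) * q ^ 2 - 2 * (q * n) + n ^ 2 * (√6 - c) / 4 := by
    linear_combination (- (q * n) / 2 + n ^ 2 * (√6 - c) / 16) * hm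
  have e3 : √6 * n ^ 2 = √6 * p ^ 2 + √6 * q ^ 2 := by rw [h]; ring
  nlinarith

lemma form_eq (φ : L2 (V M1 j)) :
    (⟪φ, T j φ⟫_ℂ).re = 2 * ((⟪φ, Lop j 0 φ⟫_ℂ).re + (⟪φ, Lop j 1 φ⟫_ℂ).re)
      + √2 * (‖Pr j 0 φ‖ ^ 2 - ‖Pr j 1 φ‖ ^ 2) := by
  have h : T j φ = B j φ + ContinuousLinearMap.adjoint (B j) φ + Wop j φ := rfl
  have hB : B j φ = Lop j 0 φ + Lop j 1 φ := by
    rw [B, Fin.sum_univ_two]; rfl
  have h2 : (⟪φ, ContinuousLinearMap.adjoint (B j) φ⟫_ℂ).re = (⟪φ, B j φ⟫_ℂ).re := by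
    rw [ContinuousLinearMap.adjoint_inner_right, ← inner_conj_symm, Complex.conj_re]
  rw [h, inner_add_right, inner_add_right, Complex.add_re, Complex.add_re, h2, inner_W, hB,
    inner_add_right, Complex.add_re]
  ring

lemma form_le (φ : L2 (V M1 j)) : (⟪φ, T j φ⟫_ℂ).re ≤ 3 * √6 / 2 * ‖φ‖ ^ 2 := by
  rw [form_eq]
  exact num_bound _ _ _ _ _ (Pr_norm φ)
    ((le_abs_self _).trans (inner_L 0 φ)) ((le_abs_self _).trans (inner_L 1 φ)) _ (Or.inl rfl)

lemma neg_form_le (φ : L2 (V M1 j)) : -(⟪φ, T j φ⟫_ℂ).re ≤ 3 * √6 / 2 * ‖φ‖ ^ 2 := by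
  rw [form_eq]
  have := num_bound ‖Pr j 0 φ‖ ‖Pr j 1 φ‖ ‖φ‖ (-(⟪φ, Lop j 0 φ⟫_ℂ).re) (-(⟪φ, Lop j 1 φ⟫_ℂ).re)
    (Pr_norm φ)
    ((neg_le_abs _).trans (inner_L 0 φ)) ((neg_le_abs _).trans (inner_L 1 φ)) (-√2) (Or.inr rfl)
  linarith

lemma pos_of_form (S : L2 (V M1 j) →L[ℂ] L2 (V M1 j)) (hS : IsSelfAdjoint S)
    (h : ∀ φ, 0 ≤ (⟪φ, S φ⟫_ℂ).re) : 0 ≤ S := by
  rw [ContinuousLinearMap.nonneg_iff_isPositive]
  refine ⟨hS.isSymmetric, fun φ => ?_⟩
  rw [ContinuousLinearMap.reApplyInnerSelf_apply]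
  have e : ⟪S φ, φ⟫_ℂ = conj ⟪φ, S φ⟫_ℂ := (inner_conj_symm (S φ) φ).symm
  rw [e]
  show 0 ≤ (conj ⟪φ, S φ⟫_ℂ).re
  rw [Complex.conj_re]
  exact h φ

lemma sa_const (c : ℝ) : IsSelfAdjoint (algebraMap ℝ (L2 (V M1 j) →L[ℂ] L2 (V M1 j)) c) := by
  rw [IsScalarTower.algebraMap_apply ℝ ℂ]
  refine IsSelfAdjoint.algebraMap _ ?_
  exact Complex.conj_ofReal c

lemma spec_add_aux {A : Type} [Ring A] [Algebra ℝ A] (a : A) (r s : ℝ) (h : r ∈ spectrum ℝ a) :
    s + r ∈ spectrum ℝ (algebraMap ℝ A s + a) := by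
  rw [add_comm s r]
  exact spectrum.add_mem_add_iff.2 h

lemma spec_sub_aux {A : Type} [Ring A] [Algebra ℝ A] (a : A) (r s : ℝ) (h : r ∈ spectrum ℝ a) :
    s - r ∈ spectrum ℝ (algebraMap ℝ A s - a) := by
  rw [← spectrum.singleton_sub_eq]
  exact Set.sub_mem_sub rfl h

lemma spec_bound (z : ℂ) (hz : z ∈ spectrum ℂ (T j)) : ∃ E : ℝ, z = E ∧ -(3 * √6 / 2) ≤ E ∧ E ≤ 3 * √6 / 2 := by
  have hre := (T_selfAdjoint j).mem_spectrum_eq_re hz
  refine ⟨z.re, hre, ?_, ?_⟩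
  · have h0 : 0 ≤ algebraMap ℝ (L2 (V M1 j) →L[ℂ] L2 (V M1 j)) (3 * √6 / 2) + T j := by
      refine pos_of_form _ (IsSelfAdjoint.add (sa_const _) (T_selfAdjoint j)) (fun φ => ?_)
      have e : (algebraMap ℝ (L2 (V M1 j) →L[ℂ] L2 (V M1 j)) (3 * √6 / 2) + T j) φ
        = ((3 * √6 / 2 : ℝ) : ℂ) • φ + T j φ := rfl
      rw [e, inner_add_right, inner_smul_right, inner_self_eq_norm_sq_to_K, Complex.add_re]
      have := neg_form_le φ
      simp only [Complex.coe_algebraMap]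
      rw [← Complex.ofReal_pow, ← Complex.ofReal_mul, Complex.ofReal_re]
      linarith
    have h1 : (3 * √6 / 2 : ℝ) + z.re ∈ spectrum ℝ (algebraMap ℝ (L2 (V M1 j) →L[ℂ] L2 (V M1 j)) (3 * √6 / 2) + T j) := by
      rw [hre] at hz
      exact spec_add_aux _ _ _ ((spectrum.algebraMap_mem_iff ℂ).1 hz)
    have := spectrum_nonneg_of_nonneg h0 h1
    linarith
  · have h0 : 0 ≤ algebraMap ℝ (L2 (V M1 j) →L[ℂ] L2 (V M1 j)) (3 * √6 / 2) - T j := by
      refine pos_of_form _ (IsSelfAdjoint.sub (sa_const _) (T_selfAdjoint j)) (fun φ => ?_)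
      have e : (algebraMap ℝ (L2 (V M1 j) →L[ℂ] L2 (V M1 j)) (3 * √6 / 2) - T j) φ
        = ((3 * √6 / 2 : ℝ) : ℂ) • φ - T j φ := rfl
      rw [e, inner_sub_right, inner_smul_right, inner_self_eq_norm_sq_to_K, Complex.sub_re]
      have := form_le φ
      simp only [Complex.coe_algebraMap]
      rw [← Complex.ofReal_pow, ← Complex.ofReal_mul, Complex.ofReal_re]
      linarith
    have h1 : (3 * √6 / 2 : ℝ) - z.re ∈ spectrum ℝ (algebraMap ℝ (L2 (V M1 j) →L[ℂ] L2 (V M1 j)) (3 * √6 / 2) - T j) := by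
      rw [hre] at hz
      exact spec_sub_aux _ _ _ ((spectrum.algebraMap_mem_iff ℂ).1 hz)
    have := spectrum_nonneg_of_nonneg h0 h1
    linarith

end Form

section Sigma

lemma e_sq : (3 * √6 / 2) ^ 2 = (27 / 2 : ℝ) := by
  have h6 : √6 ^ 2 = 6 := Real.sq_sqrt (by norm_num)
  nlinarith

lemma e_pos : (0 : ℝ) < 3 * √6 / 2 := by positivity

lemma sq2 : ((√2 : ℝ) : ℂ) ^ 2 = 2 := by
  rw [← Complex.ofReal_pow, Real.sq_sqrt (by norm_num)]
  norm_num

/-- a root of the cubic in the upper half plane gives a solution of the system -/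
lemma sol_of_root (E : ℝ) (h : ℂ) (him : 0 < h.im) (hroot : h ^ 3 - E * h ^ 2 + 2 * E = 0) :
    ∃ ξ : Fin 2 → ℂ, (∀ l, 0 < (ξ l).im) ∧
      ∀ l, ξ l * ((E : ℂ) - (wt l : ℂ) + (ξ 0 + ξ 1)) + 1 = 0 := by
  have ha : h - (√2 : ℝ) ≠ 0 := by
    intro h0
    have := congrArg Complex.im h0
    simp at this
    exact him.ne' this
  have hb : h + (√2 : ℝ) ≠ 0 := by
    intro h0
    have := congrArg Complex.im h0
    simp at this
    exact him.ne' this
  have hsum : -(h - (√2 : ℝ))⁻¹ + -(h + (√2 : ℝ))⁻¹ = h - E := by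
    field_simp
    linear_combination (h - E) * sq2 - hroot
  refine ⟨![-(h - (√2 : ℝ))⁻¹, -(h + (√2 : ℝ))⁻¹], ?_, ?_⟩
  · intro l
    fin_cases l
    · show 0 < (-(h - (√2 : ℝ))⁻¹).im
      rw [Complex.neg_im, Complex.inv_im]
      have hn : 0 < Complex.normSq (h - (√2 : ℝ)) := Complex.normSq_pos.2 ha
      have : (h - (√2 : ℝ)).im = h.im := by simp
      rw [this, neg_div, neg_neg]
      positivity
    · show 0 < (-(h + (√2 : ℝ))⁻¹).im
      rw [Complex.neg_im, Complex.inv_im]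
      have hn : 0 < Complex.normSq (h + (√2 : ℝ)) := Complex.normSq_pos.2 hb
      have : (h + (√2 : ℝ)).im = h.im := by simp
      rw [this, neg_div, neg_neg]
      positivity
  · intro l
    fin_cases l
    · show -(h - (√2 : ℝ))⁻¹ * ((E : ℂ) - (√2 : ℝ) + (-(h - (√2 : ℝ))⁻¹ + -(h + (√2 : ℝ))⁻¹)) + 1 = 0
      rw [hsum]
      have : (E : ℂ) - (√2 : ℝ) + (h - E) = h - (√2 : ℝ) := by ring
      rw [this, neg_mul, inv_mul_cancel₀ ha]
      ring
    · show -(h + (√2 : ℝ))⁻¹ * ((E : ℂ) - ((-√2 : ℝ) : ℂ) + (-(h - (√2 : ℝ))⁻¹ + -(h + (√2 : ℝ))⁻¹)) + 1 = 0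
      rw [hsum]
      have : (E : ℂ) - ((-√2 : ℝ) : ℂ) + (h - E) = h + (√2 : ℝ) := by push_cast; ring
      rw [this, neg_mul, inv_mul_cancel₀ hb]
      ring

lemma root_of_pos (E : ℝ) (h0 : 0 < E) (h1 : E < 3 * √6 / 2) :
    ∃ h : ℂ, 0 < h.im ∧ h ^ 3 - E * h ^ 2 + 2 * E = 0 := by
  have hE2 : E ^ 2 < 27 / 2 := by
    rw [← e_sq]
    gcongr
  -- real part
  obtain ⟨u, hu1, hu2⟩ : ∃ u : ℝ, 2 * E / 3 < u ∧ u * (2 * u - E) ^ 2 = E := by
    have hcont : ContinuousOn (fun u : ℝ => u * (2 * u - E) ^ 2) (Icc (2 * E / 3) (E + 1)) := by fun_prop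
    have hle : 2 * E / 3 ≤ E + 1 := by linarith
    have hmem : E ∈ Icc ((fun u : ℝ => u * (2 * u - E) ^ 2) (2 * E / 3)) ((fun u : ℝ => u * (2 * u - E) ^ 2) (E + 1)) := by
      constructor
      · show 2 * E / 3 * (2 * (2 * E / 3) - E) ^ 2 ≤ E
        nlinarith
      · show E ≤ (E + 1) * (2 * (E + 1) - E) ^ 2
        nlinarith [sq_nonneg E, mul_pos h0 h0]
    obtain ⟨u, hu, huE⟩ := intermediate_value_Icc hle hcont hmem
    refine ⟨u, lt_of_le_of_ne hu.1 ?_, huE⟩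
    rintro rfl
    have : 2 * E / 3 * (2 * (2 * E / 3) - E) ^ 2 = E := huE
    have h3 : E * (2 * E ^ 2 - 27) = 0 := by linarith
    rcases mul_eq_zero.1 h3 with h | h
    · exact h0.ne' h
    · nlinarith
  have hv : 0 < 3 * u ^ 2 - 2 * E * u := by
    have : 0 < u := by linarith
    nlinarith
  refine ⟨⟨u, √(3 * u ^ 2 - 2 * E * u)⟩, Real.sqrt_pos.2 hv, ?_⟩
  set v := √(3 * u ^ 2 - 2 * E * u) with hvdef
  have hv2 : v ^ 2 = 3 * u ^ 2 - 2 * E * u := Real.sq_sqrt hv.le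
  apply Complex.ext
  · simp [pow_succ]
    linear_combination (-3 * u + E) * hv2 - 2 * hu2
  · simp [pow_succ]
    linear_combination (-v) * hv2

lemma Sigma_pos (E : ℝ) (h0 : 0 < E) (h1 : E < 3 * √6 / 2) :
    ∃ ξ : Fin 2 → ℂ, (∀ l, 0 < (ξ l).im) ∧
      ∀ l, ξ l * ((E : ℂ) - (wt l : ℂ) + (ξ 0 + ξ 1)) + 1 = 0 := by
  obtain ⟨h, him, hr⟩ := root_of_pos E h0 h1
  exact sol_of_root E h him hr

lemma Sigma_neg (E : ℝ) (h0 : E < 0) (h1 : -(3 * √6 / 2) < E) :
    ∃ ξ : Fin 2 → ℂ, (∀ l, 0 < (ξ l).im) ∧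
      ∀ l, ξ l * ((E : ℂ) - (wt l : ℂ) + (ξ 0 + ξ 1)) + 1 = 0 := by
  obtain ⟨h, him, hr⟩ := root_of_pos (-E) (by linarith) (by linarith)
  refine sol_of_root E (-(conj h)) (by simpa using him) ?_
  have := congrArg (starRingEnd ℂ) hr
  simp only [map_add, map_sub, map_mul, map_pow, Complex.conj_ofReal, map_zero, map_ofNat] at this
  push_cast at this
  linear_combination -this

lemma nonreal_root_bound (E : ℝ) (h : ℂ) (him : 0 < h.im) (hr : h ^ 3 - E * h ^ 2 + 2 * E = 0) :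
    E ≠ 0 ∧ E ^ 2 < 27 / 2 := by
  obtain ⟨u, v⟩ := h
  have him' : 0 < v := him
  have h1 := congrArg Complex.re hr
  have h2 := congrArg Complex.im hr
  simp [pow_succ] at h1 h2
  have h3 : v * (3 * u ^ 2 - v ^ 2 - 2 * E * u) = 0 := by linear_combination h2
  have h4 : v ^ 2 = 3 * u ^ 2 - 2 * E * u := by
    rcases mul_eq_zero.1 h3 with h | h
    · exact absurd h him'.ne'
    · linarith
  have h5 : u * (2 * u - E) ^ 2 = E := by
    linear_combination (-1/2) * h1 + ((-3 * u + E)/2) * h4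
  have h6 : 0 < 3 * u ^ 2 - 2 * E * u := by rw [← h4]; positivity
  have hE : E ≠ 0 := by
    rintro rfl
    have : u * (2 * u) ^ 2 = 0 := by linarith
    have hu : u = 0 := by
      by_contra hu
      have : u ^ 3 ≠ 0 := pow_ne_zero 3 hu
      apply this; nlinarith
    subst hu
    simp at h6
  refine ⟨hE, ?_⟩
  rcases lt_or_gt_of_ne hE with hneg | hpos
  · have hu : u < 0 := by
      by_contra hu
      push Not at hu
      nlinarith [mul_nonneg hu (sq_nonneg (2 * u - E))]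
    have h7 : 3 * u - 2 * E < 0 := by
      by_contra h7
      push Not at h7
      nlinarith
    have h8 : 2 * u - E < E / 3 := by linarith
    have h9 : (E / 3) ^ 2 < (2 * u - E) ^ 2 := by nlinarith
    have h10 : u < 2 * E / 3 := by linarith
    have h11 : E < (2 * E / 3) * (E / 3) ^ 2 := by
      calc E = u * (2 * u - E) ^ 2 := h5.symm
        _ < u * (E / 3) ^ 2 := mul_lt_mul_of_neg_left h9 hu
        _ < (2 * E / 3) * (E / 3) ^ 2 := mul_lt_mul_of_pos_right h10 (by positivity)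
    nlinarith
  · have hu : 0 < u := by
      by_contra hu
      push Not at hu
      nlinarith [mul_nonneg (neg_nonneg.2 hu) (sq_nonneg (2 * u - E))]
    have h7 : 0 < 3 * u - 2 * E := by
      by_contra h7
      push Not at h7
      nlinarith
    have h8 : E / 3 < 2 * u - E := by linarith
    have h9 : (E / 3) ^ 2 < (2 * u - E) ^ 2 := by nlinarith
    have h10 : 2 * E / 3 < u := by linarith
    have h11 : (2 * E / 3) * (E / 3) ^ 2 < E := by
      calc (2 * E / 3) * (E / 3) ^ 2 < u * (E / 3) ^ 2 := mul_lt_mul_of_pos_right h10 (by positivity)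
        _ < u * (2 * u - E) ^ 2 := mul_lt_mul_of_pos_left h9 hu
        _ = E := h5
    nlinarith

lemma root_of_sol (E : ℝ) (ξ : Fin 2 → ℂ) (him : ∀ l, 0 < (ξ l).im)
    (hξ : ∀ l, ξ l * ((E : ℂ) - (wt l : ℂ) + (ξ 0 + ξ 1)) + 1 = 0) :
    0 < ((E : ℂ) + (ξ 0 + ξ 1)).im ∧
      ((E : ℂ) + (ξ 0 + ξ 1)) ^ 3 - E * ((E : ℂ) + (ξ 0 + ξ 1)) ^ 2 + 2 * E = 0 := by
  constructor
  · simp only [Complex.add_im, Complex.ofReal_im, zero_add]
    exact add_pos (him 0) (him 1)
  · have h0 := hξ 0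
    have h1 := hξ 1
    have w0 : (wt 0 : ℝ) = √2 := rfl
    have w1 : (wt 1 : ℝ) = -√2 := rfl
    rw [w0] at h0
    rw [w1] at h1
    push_cast at h1
    have hs := sq2
    set t : ℂ := ((√2 : ℝ) : ℂ)
    set a := ξ 0
    set b := ξ 1
    -- (h - E)(h^2 - 2) = -2h with h = E + a + b
    have e1 : a * ((E + (a + b)) ^ 2 - 2) = -((E : ℂ) + (a + b) + t) := by
      linear_combination ((E : ℂ) + (a + b) + t) * h0 + a * hs
    have e2 : b * ((E + (a + b)) ^ 2 - 2) = -((E : ℂ) + (a + b) - t) := by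
      linear_combination ((E : ℂ) + (a + b) - t) * h1 + b * hs
    linear_combination e1 + e2

lemma Sigma1_eq : Sigma1 (fun _ _ : Fin 2 => (1 : ℝ)) wt
    = Ioo (-(3 * √6 / 2)) 0 ∪ Ioo 0 (3 * √6 / 2) := by
  ext E
  have key : E ∈ Sigma1 (fun _ _ : Fin 2 => (1 : ℝ)) wt ↔ ∃ ξ : Fin 2 → ℂ, (∀ l, 0 < (ξ l).im) ∧
      ∀ l, ξ l * ((E : ℂ) - (wt l : ℂ) + (ξ 0 + ξ 1)) + 1 = 0 := by
    unfold Sigma1
    simp only [Complex.ofReal_one, one_mul, Fin.sum_univ_two]
    rfl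
  rw [key]
  constructor
  · rintro ⟨ξ, him, hξ⟩
    obtain ⟨h1, h2⟩ := root_of_sol E ξ him hξ
    obtain ⟨h3, h4⟩ := nonreal_root_bound E _ h1 h2
    rw [← e_sq] at h4
    have h5 := abs_lt_of_sq_lt_sq h4 e_pos.le
    rw [abs_lt] at h5
    rcases lt_or_gt_of_ne h3 with h | h
    · left; exact ⟨h5.1, h⟩
    · right; exact ⟨h, h5.2⟩
  · rintro (⟨h1, h2⟩ | ⟨h1, h2⟩)
    · exact Sigma_neg E h2 h1
    · exact Sigma_pos E h1 h2

lemma spectrum_eq (j : Fin 2) : spectrum ℂ (T j) = (fun E : ℝ => (E : ℂ)) '' Icc (-(3 * √6 / 2)) (3 * √6 / 2) := by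
  apply Set.Subset.antisymm
  · intro z hz
    obtain ⟨E, rfl, h1, h2⟩ := spec_bound z hz
    exact ⟨E, ⟨h1, h2⟩, rfl⟩
  · have hcl : IsClosed ((fun E : ℝ => (E : ℂ)) ⁻¹' spectrum ℂ (T j)) :=
      (spectrum.isClosed (T j)).preimage Complex.continuous_ofReal
    have hsub : Ioo (-(3 * √6 / 2)) 0 ∪ Ioo 0 (3 * √6 / 2) ⊆ (fun E : ℝ => (E : ℂ)) ⁻¹' spectrum ℂ (T j) := by
      rintro E (⟨h1, h2⟩ | ⟨h1, h2⟩)
      · obtain ⟨ξ, him, hξ⟩ := Sigma_neg E h2 h1
        exact mem_spectrum ξ E him hξ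
      · obtain ⟨ξ, him, hξ⟩ := Sigma_pos E h1 h2
        exact mem_spectrum ξ E him hξ
    have h3 := hcl.closure_subset_iff.2 hsub
    have he := e_pos
    rw [closure_union, closure_Ioo (by linarith), closure_Ioo (by linarith),
      Icc_union_Icc_eq_Icc (by linarith) (by linarith)] at h3
    rintro z ⟨E, hE, rfl⟩
    exact h3 hE

end Sigma

section Count

lemma card_components_one {X : Type} [TopologicalSpace X] (S : Set X) (h : IsConnected S) :
    Nat.card (ConnectedComponents ↥S) = 1 := by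
  have h1 : ConnectedSpace ↥S := isConnected_iff_connectedSpace.1 h
  rw [Nat.card_eq_one_iff_unique]
  constructor
  · constructor
    intro a b
    obtain ⟨a, rfl⟩ := ConnectedComponents.surjective_coe a
    obtain ⟨b, rfl⟩ := ConnectedComponents.surjective_coe b
    rw [ConnectedComponents.coe_eq_coe, PreconnectedSpace.connectedComponent_eq_univ,
      PreconnectedSpace.connectedComponent_eq_univ]
  · exact ⟨ConnectedComponents.mk h1.toNonempty.some⟩

lemma card_components_two (a b c : ℝ) (hab : a < b) (hbc : b < c) :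
    Nat.card (ConnectedComponents ↥(Ioo a b ∪ Ioo b c)) = 2 := by
  set S : Set ℝ := Ioo a b ∪ Ioo b c with hS
  set U : Set ↥S := {x | (x : ℝ) < b} with hU
  have hUc : Uᶜ = {x : ↥S | b < (x : ℝ)} := by
    ext x
    simp only [hU, Set.mem_compl_iff, Set.mem_ofPred_eq, not_lt]
    constructor
    · intro h
      rcases x.2 with h' | h'
      · exact absurd h'.2 (not_lt.2 h)
      · exact h'.1
    · intro h; exact h.le
  have hclop : IsClopen U := by
    refine ⟨⟨?_⟩, ?_⟩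
    · rw [hUc]
      exact isOpen_lt continuous_const continuous_subtype_val
    · exact isOpen_lt continuous_subtype_val continuous_const
  have hf : Continuous U.boolIndicator := (continuous_boolIndicator_iff_isClopen U).2 hclop
  have hbij : Function.Bijective hf.connectedComponentsLift := by
    constructor
    · intro x y hxy
      obtain ⟨x, rfl⟩ := ConnectedComponents.surjective_coe x
      obtain ⟨y, rfl⟩ := ConnectedComponents.surjective_coe y
      rw [hf.connectedComponentsLift_apply_coe, hf.connectedComponentsLift_apply_coe] at hxy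
      rw [ConnectedComponents.coe_eq_coe']
      by_cases hx : x ∈ U
      · have hy : y ∈ U := by
          rw [(Set.mem_iff_boolIndicator U x).1 hx] at hxy
          exact (Set.mem_iff_boolIndicator U y).2 hxy.symm
        have him : ((↑) : ↥S → ℝ) '' U = Ioo a b := by
          ext z
          constructor
          · rintro ⟨w, hw, rfl⟩
            rcases w.2 with h' | h'
            · exact h'
            · exact absurd h'.1 (not_lt.2 (le_of_lt hw))
          · intro hz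
            exact ⟨⟨z, Or.inl hz⟩, hz.2, rfl⟩
        have hpre : IsPreconnected U := by
          rw [← Topology.IsInducing.subtypeVal.isPreconnected_image, him]
          exact isPreconnected_Ioo
        exact hpre.subset_connectedComponent hy hx
      · have hy : y ∉ U := by
          rw [(Set.notMem_iff_boolIndicator U x).1 hx] at hxy
          exact (Set.notMem_iff_boolIndicator U y).2 hxy.symm
        have him : ((↑) : ↥S → ℝ) '' Uᶜ = Ioo b c := by
          rw [hUc]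
          ext z
          constructor
          · rintro ⟨w, hw, rfl⟩
            rcases w.2 with h' | h'
            · exact absurd h'.2 (not_lt.2 (le_of_lt hw))
            · exact h'
          · intro hz
            exact ⟨⟨z, Or.inr hz⟩, hz.1, rfl⟩
        have hpre : IsPreconnected Uᶜ := by
          rw [← Topology.IsInducing.subtypeVal.isPreconnected_image, him]
          exact isPreconnected_Ioo
        exact hpre.subset_connectedComponent hy hx
    · intro t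
      cases t
      · have hm : (b + c) / 2 ∈ S := Or.inr ⟨by linarith, by linarith⟩
        refine ⟨ConnectedComponents.mk ⟨(b + c) / 2, hm⟩, ?_⟩
        rw [hf.connectedComponentsLift_apply_coe]
        refine (Set.notMem_iff_boolIndicator U _).1 ?_
        show ¬ ((b + c) / 2 < b)
        linarith
      · have hm : (a + b) / 2 ∈ S := Or.inl ⟨by linarith, by linarith⟩
        refine ⟨ConnectedComponents.mk ⟨(a + b) / 2, hm⟩, ?_⟩
        rw [hf.connectedComponentsLift_apply_coe]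
        refine (Set.mem_iff_boolIndicator U _).1 ?_
        show (a + b) / 2 < b
        linarith
  rw [Nat.card_congr (Equiv.ofBijective _ hbij)]
  simp

end Count

/-- The explicit label invariant operator `T` with two labels, substitution matrix `M1` (all entries
one), `m_{j,k} = 1` and potential `wt = (√2, -√2)`: the set `Σ₁` is `(-e, 0) ∪ (0, e)` with
`e = edge = 3√6/2`, so it has two connected components, whereas the spectrum of `T` is the single
interval `[-e, e]`, for each root label `j`. -/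
theorem result :
    Admissible M1 ∧
    Sigma1 hop wt = Ioo (-edge) 0 ∪ Ioo 0 edge ∧
    numComp (Sigma1 hop wt) = 2 ∧
    ∀ j : Fin 2, ∃ T : Op (V M1 j),
      IsLabelInvariant M1 hop wt j T ∧ SelfAdj T ∧
      specSet T = Complex.ofReal '' Icc (-edge) edge ∧
      numComp (specSet T) = 1 := by
  refine ⟨?_, Sigma1_eq, ?_, fun j => ⟨T j, T_label j, T_selfAdjoint j, spectrum_eq j, ?_⟩⟩
  · refine ⟨?_, ?_, 1, ?_⟩
    · intro j; simp
    · intro j; simp
    · intro j k; simp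
  · have h : Sigma1 hop wt = Ioo (-(3 * √6 / 2)) 0 ∪ Ioo 0 (3 * √6 / 2) := Sigma1_eq
    rw [h]
    unfold numComp
    exact card_components_two _ _ _ (by have := e_pos; linarith) e_pos
  · show numComp (spectrum ℂ (T j)) = 1
    rw [spectrum_eq]
    unfold numComp
    apply card_components_one
    refine IsConnected.image (isConnected_Icc (by have := e_pos; linarith)) _ ?_
    exact Complex.continuous_ofReal.continuousOn

end Pool.Agent.Results.MP_750254_mp.TwoComponents
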